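import Pool.Agent.U153.Arm

set_option autoImplicit false

open MeasureTheory Set

/-!
Site percolation on `Z^d`, `d ≥ 3`, slightly above the critical point: holes and truncated arms at
scale `n` have probability at most `C (p - p_c)⁻¹ n ^ (-c (p - p_c))`, with constants which do not
depend on `p`.  Hence, up to the factor `1 + 1 / log n`, the probability at `p_c` to reach distance
`n` is at most the probability to reach infinity at `p_c + C log log n / log n`.

The main estimates are in the modules `Pool.Agent.U153.Mf`, `Pool.Agent.U153.Hol` and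
`Pool.Agent.U153.Arm`.
-/

namespace Pool.Agent.Results.MP_e13933_pr.ApproachFromAbove

noncomputable section

/-- Vertices of `Z^d`. -/
abbrev V (d : ℕ) : Type := Fin d → ℤ

/-- The box of radius `N` around the origin; it has `(2 * N + 1) ^ d` vertices. -/
def box (d N : ℕ) : Set (V d) := {x | ∀ i, |x i| ≤ N}

/-- The open subgraph: two vertices at Euclidean distance one are joined if both are open
(`ω x = true`). -/
def openGraph {d : ℕ} (ω : V d → Bool) : SimpleGraph (V d) where
  Adj x y := ∑ i, |x i - y i| = 1 ∧ ω x = true ∧ ω y = true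
  symm := ⟨fun x y ⟨h1, h2, h3⟩ => ⟨by simpa only [abs_sub_comm] using h1, h3, h2⟩⟩
  loopless := ⟨fun x h => by simpa using h.1⟩

/-- The open cluster of `x` (empty if `x` is closed). -/
def cluster {d : ℕ} (ω : V d → Bool) (x : V d) : Set (V d) :=
  {y | ω x = true ∧ (openGraph ω).Reachable x y}

/-- Site percolation with parameter `p`: all vertices are open with probability `p`,
independently. -/
def P (d : ℕ) (p : unitInterval) : Measure (V d → Bool) :=
  Measure.infinitePi (fun _ : V d =>
    ENNReal.ofReal (p : ℝ) • Measure.dirac true + ENNReal.ofReal (1 - (p : ℝ)) • Measure.dirac false)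

/-- The percolation probability `θ_d(p)`. -/
def theta (d : ℕ) (p : unitInterval) : ℝ := (P d p).real {ω | (cluster ω 0).Infinite}

/-- The critical point `p_c(d)`, the supremum of the parameters with `θ_d(p) = 0`. -/
def pc (d : ℕ) : unitInterval :=
  ⟨sSup {t : ℝ | ∃ q : unitInterval, (q : ℝ) = t ∧ theta d q = 0}, by
    constructor
    · apply Real.sSup_nonneg
      rintro x ⟨q, rfl, _⟩
      exact q.2.1
    · apply Real.sSup_le
      · rintro x ⟨q, rfl, _⟩
        exact q.2.2
      · exact zero_le_one⟩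

/-- Some open cluster meets the box of radius `k` and the complement of the box of radius `n`. -/
def Reaches {d : ℕ} (ω : V d → Bool) (k n : ℕ) : Prop := ∃ x ∈ box d k, ¬ cluster ω x ⊆ box d n

/-- Some infinite open cluster meets the box of radius `k`. -/
def Escapes {d : ℕ} (ω : V d → Bool) (k : ℕ) : Prop := ∃ x ∈ box d k, (cluster ω x).Infinite

/-! ### Comparison with the model of the modules -/

lemma nd_mem {d : ℕ} {ω : V d → Bool} {x y : V d} :
    (∀ c ∈ (Pool.Agent.Y990.CB.siteM d).nd x y, ω c = true) ↔ ω x = true ∧ ω y = true := by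
  show (∀ c : V d, c ∈ ({x, y} : Finset (V d)) → ω c = true) ↔ _
  simp only [Finset.mem_insert, Finset.mem_singleton, forall_eq_or_imp, forall_eq]

open Pool.Agent.Y990.CB in
lemma graph_eq {d : ℕ} (ω : V d → Bool) : openGraph ω = G (siteM d) ω univ := by
  ext x y
  show (∑ i, |x i - y i| = 1 ∧ ω x = true ∧ ω y = true) ↔
    (∑ i, |x i - y i| = 1 ∧ x ∈ univ ∧ y ∈ univ ∧ ∀ c ∈ (siteM d).nd x y, ω c = true)
  rw [nd_mem]
  simp only [mem_univ, true_and]

open Pool.Agent.Y990.CB in
lemma cluster_sub {d : ℕ} (ω : V d → Bool) (x : V d) :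
    cluster ω x ⊆ cl (siteM d) ω univ x := by
  rintro y ⟨-, h⟩
  rw [graph_eq] at h
  exact h

open Pool.Agent.Y990.CB in
lemma infinite_iff {d : ℕ} (ω : V d → Bool) (x : V d) :
    (cluster ω x).Infinite ↔ (cl (siteM d) ω univ x).Infinite := by
  constructor
  · intro h
    exact h.mono (cluster_sub ω x)
  · intro h
    have hx : ω x = true := by
      obtain ⟨y, hy, hyx⟩ := Set.Infinite.exists_notMem_finset h {x}
      have hyx' : y ≠ x := by simpa using hyx
      have hr : (G (siteM d) ω univ).Reachable x y := hy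
      obtain ⟨q⟩ := hr
      cases q with
      | nil => exact absurd rfl hyx'
      | cons hadj _ => exact (nd_mem.1 hadj.2.2.2).1
    refine Set.Infinite.mono ?_ h
    intro y hy
    refine ⟨hx, ?_⟩
    rw [graph_eq]
    exact hy

open Pool.Agent.R959.GF in
lemma P_eq (d : ℕ) (p : unitInterval) : P d p = ms d p := rfl

open Pool.Agent.Y990.CB in
lemma theta_eq (d : ℕ) (p : unitInterval) : theta d p = th (siteM d) p := by
  unfold theta th
  rw [P_eq]
  congr 1
  ext ω
  exact infinite_iff ω 0

open Pool.Agent.Y990.CB in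
lemma pc_eq (d : ℕ) : pc d = Pool.Agent.Y990.CB.pc (siteM d) := by
  apply Subtype.ext
  show sSup {t : ℝ | ∃ q : unitInterval, (q : ℝ) = t ∧ theta d q = 0} =
    sSup {x : ℝ | ∃ q : unitInterval, (q : ℝ) = x ∧ th (siteM d) q = 0}
  simp only [theta_eq]

open Pool.Agent.Y990.CB in
lemma box_eq (d N : ℕ) : box d N = Bo (0 : V d) N := by
  ext x
  simp only [box, Bo, mem_ofPred_eq, Pi.zero_apply, sub_zero]

open Pool.Agent.U153 in
lemma escapes_iff {d k : ℕ} {ω : V d → Bool} : Escapes ω k ↔ ω ∉ Fin' d k := by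
  unfold Escapes Fin'
  simp only [box_eq, mem_ofPred_eq, not_forall, exists_prop]
  refine exists_congr fun x => and_congr_right fun _ => ?_
  rw [infinite_iff]
  rfl

open Pool.Agent.U153 Pool.Agent.Y990.CB Pool.Agent.R959.GF in
lemma reaches_sub {d k n : ℕ} (hkn : k ≤ n) {ω : V d → Bool} (h : Reaches ω k n) :
    ω ∈ Avs d k n := by
  obtain ⟨x, hx, hxn⟩ := h
  obtain ⟨y, hy, hyn⟩ := Set.not_subset.1 hxn
  rw [box_eq] at hx hyn
  have hr : (Gs ω univ).Reachable x y := cluster_sub ω x hy
  obtain ⟨x', h1, h2⟩ := exit_As (Bo_mono 0 hkn hx) (Or.inl hyn) hr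
  exact ⟨x, hx, x', h1, h2⟩

/-- The condition on the radius of the small box. -/
lemma scale {A k n : ℕ} (hA : 2 ≤ A) (hn : 81 ^ A ≤ n)
    (hk : (k : ℝ) ≤ (n : ℝ) ^ (1 / (8192 * A) : ℝ)) : (k + 2) ^ (2 * A) ≤ n := by
  have hAR : (2 : ℝ) ≤ A := by exact_mod_cast hA
  have hn1 : 1 ≤ n := le_trans (Nat.one_le_pow _ _ (by norm_num)) hn
  have hnR : (1 : ℝ) ≤ n := by exact_mod_cast hn1
  have hnR0 : (0 : ℝ) < n := by linarith
  have h0 : (1 : ℝ) ≤ (n : ℝ) ^ (1 / (8192 * A) : ℝ) := Real.one_le_rpow hnR (by positivity)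
  have h1 : ((k : ℝ) + 2) ≤ 3 * (n : ℝ) ^ (1 / (8192 * A) : ℝ) := by linarith
  have h2 : ((k : ℝ) + 2) ^ (2 * A) ≤ (3 * (n : ℝ) ^ (1 / (8192 * A) : ℝ)) ^ (2 * A) :=
    pow_le_pow_left₀ (by positivity) h1 _
  have h3 : (3 * (n : ℝ) ^ (1 / (8192 * A) : ℝ)) ^ (2 * A) = 9 ^ A * (n : ℝ) ^ (1 / 4096 : ℝ) := by
    rw [mul_pow, pow_mul, ← Real.rpow_natCast ((n : ℝ) ^ (1 / (8192 * A) : ℝ)),
      ← Real.rpow_mul hnR0.le]
    have e : (1 / (8192 * A) : ℝ) * ((2 * A : ℕ) : ℝ) = 1 / 4096 := by
      push_cast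
      have : (A : ℝ) ≠ 0 := by linarith
      field_simp
      norm_num
    rw [e]
    norm_num
  have h4 : (9 : ℝ) ^ A ≤ (n : ℝ) ^ (1 / 2 : ℝ) := by
    rw [← Real.sqrt_eq_rpow]
    apply Real.le_sqrt_of_sq_le
    have h5 : ((9 : ℝ) ^ A) ^ 2 = ((81 ^ A : ℕ) : ℝ) := by
      push_cast
      rw [← pow_mul, mul_comm, pow_mul]
      norm_num
    rw [h5]
    exact_mod_cast hn
  have h5 : (n : ℝ) ^ (1 / 4096 : ℝ) ≤ (n : ℝ) ^ (1 / 2 : ℝ) :=
    Real.rpow_le_rpow_of_exponent_le hnR (by norm_num)
  have h6 : (n : ℝ) ^ (1 / 2 : ℝ) * (n : ℝ) ^ (1 / 2 : ℝ) = n := by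
    rw [← Real.rpow_add hnR0]
    norm_num
  have h7 : ((k : ℝ) + 2) ^ (2 * A) ≤ n := by
    rw [h3] at h2
    refine h2.trans ?_
    calc 9 ^ A * (n : ℝ) ^ (1 / 4096 : ℝ) ≤ (n : ℝ) ^ (1 / 2 : ℝ) * (n : ℝ) ^ (1 / 2 : ℝ) :=
          mul_le_mul h4 h5 (by positivity) (by positivity)
      _ = n := h6
  exact_mod_cast h7

lemma loglog {n : ℕ} (hn : 3 ≤ n) : 1 ≤ Real.log n ∧ 1 / 40 ≤ Real.log (Real.log n) := by
  have hnR : (3 : ℝ) ≤ n := by exact_mod_cast hn
  have h1 : 1.02 ≤ Real.log 3 - 0.006 := by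
    have e1 : Real.log 3 = Real.log 2 + Real.log (3 / 2) := by
      rw [← Real.log_mul (by norm_num) (by norm_num)]
      norm_num
    have e2 := Real.log_two_gt_d9
    have e3 := Real.one_sub_inv_le_log_of_pos (show (0 : ℝ) < 3 / 2 by norm_num)
    norm_num at e3
    rw [e1]
    norm_num
    linarith
  have h2 : Real.log 3 ≤ Real.log n := Real.log_le_log (by norm_num) hnR
  norm_num at h1
  have h3 : 1.026 ≤ Real.log n := by
    norm_num
    linarith
  refine ⟨by norm_num at h3; linarith, ?_⟩
  have h4 := Real.one_sub_inv_le_log_of_pos (show (0 : ℝ) < 1.026 by norm_num)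
  have h5 : Real.log 1.026 ≤ Real.log (Real.log n) := Real.log_le_log (by norm_num) h3
  norm_num at h4 h5 ⊢
  linarith

open Pool.Agent.U153 Pool.Agent.Y990.CB Pool.Agent.R959.GF in
/-- **Site percolation slightly above the critical point.**  For every `d ≥ 3` there are `c > 0` and
`C ≥ 1` such that

* for all `p > p_c` and `n ≥ 1`, the `P_p`-probability that no infinite cluster meets the box of
  radius `n` is at most `C (p - p_c)⁻¹ n ^ (-c (p - p_c))`, and so is, for all `k ≤ n ^ c`, the
  probability that the box of radius `k` is connected to the complement of the box of radius `n`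
  but not to infinity;
* for all `n ≥ 3`, all `p ≥ p_c + C log log n / log n` and all `k ≤ n ^ c`, the
  `P_{p_c}`-probability that the box of radius `k` is connected to the complement of the box of
  radius `n` is at most `1 + 1 / log n` times the `P_p`-probability that it is connected to
  infinity (which is `θ_d(p)` for `k = 0`). -/
theorem result (d : ℕ) (hd : 3 ≤ d) : ∃ c C : ℝ, 0 < c ∧ 1 ≤ C ∧
    (∀ p : unitInterval, pc d < p → ∀ n : ℕ, 1 ≤ n →
      (P d p).real {ω | ¬ Escapes ω n} ≤
        C / (p - pc d) * (n : ℝ) ^ (-(c * (p - pc d))) ∧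
      ∀ k : ℕ, (k : ℝ) ≤ (n : ℝ) ^ c →
        (P d p).real {ω | Reaches ω k n ∧ ¬ Escapes ω k} ≤
          C / (p - pc d) * (n : ℝ) ^ (-(c * (p - pc d)))) ∧
    (∀ n : ℕ, 3 ≤ n → ∀ p : unitInterval,
      (pc d : ℝ) + C * Real.log (Real.log n) / Real.log n ≤ p →
      ∀ k : ℕ, (k : ℝ) ≤ (n : ℝ) ^ c →
        (P d (pc d)).real {ω | Reaches ω k n} ≤
          (1 + 1 / Real.log n) * (P d p).real {ω | Escapes ω k}) := by
  obtain ⟨C1, hC1, hH⟩ := holes_inf hd
  obtain ⟨A, C2, hA, hC2, hT⟩ := arms_inf hd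
  rw [pc_eq]
  set π : ℝ := (Pool.Agent.Y990.CB.pc (siteM d) : ℝ) with hπ
  have hπ0 : 0 < π := Pool.Agent.Y333.CB.pc_pos d (siteM d) nd_site
  have hπ1 : π < 1 := pc_lt hd
  have hAR : (2 : ℝ) ≤ A := by exact_mod_cast hA
  set c : ℝ := 1 / (8192 * A) with hc
  have hc0 : 0 < c := by positivity
  have hc1 : c ≤ 1 / 4096 := by
    rw [hc, div_le_div_iff₀ (by positivity) (by norm_num)]
    linarith
  set C3 : ℝ := C1 + C2 + 2 with hC3
  have hC30 : 1 ≤ C3 := by linarith
  -- truncated arms
  have key : ∀ p : unitInterval, π < p → ∀ n : ℕ, 1 ≤ n → ∀ k : ℕ, (k : ℝ) ≤ (n : ℝ) ^ c →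
      (ms d p).real (Avs d k n ∩ Fin' d k) ≤ C3 / (p - π) * (n : ℝ) ^ (-(c * (p - π))) := by
    intro p hp n hn k hk
    have hδ0 : 0 < (p : ℝ) - π := by linarith
    have hδ1 : (p : ℝ) - π ≤ 1 := by
      have := p.2.2
      linarith
    have hnR : (1 : ℝ) ≤ n := by exact_mod_cast hn
    have hnR0 : (0 : ℝ) < n := by linarith
    by_cases hbig : 81 ^ A ≤ n
    · refine (hT p hp k n (scale hA hbig hk)).trans ?_
      refine mul_le_mul_of_nonneg_right ?_ (by positivity)
      exact div_le_div_of_nonneg_right (by linarith) hδ0.le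
    · push Not at hbig
      have h1 : (n : ℝ) ^ (c * (p - π)) ≤ 2 := by
        have h2 : (n : ℝ) ≤ (81 : ℝ) ^ A := by exact_mod_cast hbig.le
        calc (n : ℝ) ^ (c * (p - π)) ≤ (n : ℝ) ^ c := by
              refine Real.rpow_le_rpow_of_exponent_le hnR ?_
              calc c * ((p : ℝ) - π) ≤ c * 1 := mul_le_mul_of_nonneg_left hδ1 hc0.le
                _ = c := mul_one c
          _ ≤ ((81 : ℝ) ^ A) ^ c := Real.rpow_le_rpow hnR0.le h2 hc0.le
          _ = (81 : ℝ) ^ (1 / 8192 : ℝ) := by
              rw [← Real.rpow_natCast, ← Real.rpow_mul (by norm_num)]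
              congr 1
              rw [hc]
              have : (A : ℝ) ≠ 0 := by linarith
              field_simp
          _ ≤ ((2 : ℝ) ^ (8192 : ℕ)) ^ (1 / 8192 : ℝ) := by
              refine Real.rpow_le_rpow (by norm_num) ?_ (by norm_num)
              calc (81 : ℝ) ≤ 2 ^ 7 := by norm_num
                _ ≤ 2 ^ (8192 : ℕ) := pow_le_pow_right₀ (by norm_num) (by norm_num)
          _ = 2 := by
              rw [← Real.rpow_natCast, ← Real.rpow_mul (by norm_num)]
              norm_num
      have h2 : 0 < (n : ℝ) ^ (c * (p - π)) := by positivity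
      calc (ms d p).real (Avs d k n ∩ Fin' d k) ≤ 1 := measureReal_le_one
        _ ≤ C3 / (p - π) * (n : ℝ) ^ (-(c * (p - π))) := by
            rw [Real.rpow_neg hnR0.le, ← div_eq_mul_inv, le_div_iff₀ h2, one_mul]
            have h3 : C3 ≤ C3 / (p - π) := by
              rw [le_div_iff₀ hδ0]
              exact mul_le_of_le_one_right (by linarith) hδ1
            linarith
  set K : ℝ := (40 * Real.log (2 * C3 / π) + 3) / c with hK
  have hlogK : 0 ≤ Real.log (2 * C3 / π) := by
    refine Real.log_nonneg ?_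
    rw [le_div_iff₀ hπ0]
    linarith
  have hK0 : 0 ≤ K := by positivity
  refine ⟨c, C3 + K + 40, hc0, by linarith, ?_, ?_⟩
  · intro p hp n hn
    have hp' : π < p := hp
    have hδ0 : 0 < (p : ℝ) - π := by linarith
    have hnR : (1 : ℝ) ≤ n := by exact_mod_cast hn
    have hCle : C3 / ((p : ℝ) - π) ≤ (C3 + K + 40) / (p - π) :=
      div_le_div_of_nonneg_right (by linarith) hδ0.le
    refine ⟨?_, ?_⟩
    · have h1 : {ω : V d → Bool | ¬ Escapes ω n} = Fin' d n := by
        ext ω
        show ¬ Escapes ω n ↔ ω ∈ Fin' d n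
        rw [escapes_iff, not_not]
      rw [h1, P_eq]
      refine (hH p hp n hn).trans ?_
      refine mul_le_mul ?_ ?_ (by positivity) (by positivity)
      · exact div_le_div_of_nonneg_right (by linarith) hδ0.le
      · refine Real.rpow_le_rpow_of_exponent_le hnR (neg_le_neg ?_)
        have := mul_le_mul_of_nonneg_right hc1 hδ0.le
        linarith
    · intro k hk
      have hkn : k ≤ n := by
        have h1 : (n : ℝ) ^ c ≤ (n : ℝ) ^ (1 : ℝ) :=
          Real.rpow_le_rpow_of_exponent_le hnR (by linarith)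
        rw [Real.rpow_one] at h1
        exact_mod_cast hk.trans h1
      rw [P_eq]
      refine (measureReal_mono ?_ (measure_ne_top _ _)).trans ((key p hp' n hn k hk).trans
        (mul_le_mul_of_nonneg_right hCle (by positivity)))
      rintro ω ⟨h1, h2⟩
      refine ⟨reaches_sub hkn h1, ?_⟩
      rw [escapes_iff, not_not] at h2
      exact h2
  · intro n hn p hp k hk
    obtain ⟨hl1, hL⟩ := loglog hn
    set l : ℝ := Real.log n with hl
    set L : ℝ := Real.log l with hLd
    have hL0 : 0 < L := by linarith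
    have hl0 : 0 < l := by linarith
    have hn1 : 1 ≤ n := by omega
    have hnR : (1 : ℝ) ≤ n := by exact_mod_cast hn1
    have hnR0 : (0 : ℝ) < n := by linarith
    have hCL : 0 < (C3 + K + 40) * L / l := by positivity
    set δ : ℝ := (p : ℝ) - π with hδ
    have hδL : (C3 + K + 40) * L / l ≤ δ := by linarith
    have hδ0 : 0 < δ := by linarith
    have hδ1 : δ ≤ 1 := by
      have := p.2.2
      linarith
    have hδl : (C3 + K + 40) * L ≤ δ * l := by
      rwa [div_le_iff₀ hl0] at hδL
    have hp' : π < p := by linarith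
    have hkn : k ≤ n := by
      have h1 : (n : ℝ) ^ c ≤ (n : ℝ) ^ (1 : ℝ) :=
        Real.rpow_le_rpow_of_exponent_le hnR (by linarith)
      rw [Real.rpow_one] at h1
      exact_mod_cast hk.trans h1
    -- the lower bound for the percolation probability
    have hth : π / 2 * δ ≤ (ms d p).real (Fin' d k)ᶜ := by
      refine (th_ge (d := d) (by omega) (p := p) hp'.le).trans ?_
      rw [th_Pc0]
      refine measureReal_mono ?_ (measure_ne_top _ _)
      intro ω hω h
      exact hω (h 0 (self_mem_Bo 0 k))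
    have hE : {ω : V d → Bool | Escapes ω k} = (Fin' d k)ᶜ := by
      ext ω
      show Escapes ω k ↔ ω ∉ Fin' d k
      exact escapes_iff
    -- the error
    have herr : C3 / δ * (n : ℝ) ^ (-(c * δ)) ≤ 1 / l * (π / 2 * δ) := by
      have e1 : 1 / δ ≤ l := by
        rw [div_le_iff₀ hδ0]
        have : 1 ≤ (C3 + K + 40) * L := by nlinarith
        linarith
      have e2 : Real.log (1 / δ) ≤ L := Real.log_le_log (by positivity) e1
      have e3 : Real.log (2 * C3 / π) + 3 * L ≤ c * δ * l := by
        have f1 : K * L ≤ δ * l := by nlinarith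
        have f2 := mul_le_mul_of_nonneg_left f1 hc0.le
        have f3 : c * (K * L) = (40 * Real.log (2 * C3 / π) + 3) * L := by
          rw [hK]
          field_simp
        rw [f3] at f2
        nlinarith
      have e4 : (n : ℝ) ^ (-(c * δ)) = Real.exp (-(c * δ * l)) := by
        rw [Real.rpow_def_of_pos hnR0]
        congr 1
        ring
      have e5 : Real.exp (-(c * δ * l)) ≤
          Real.exp (-(Real.log (2 * C3 / π) + Real.log (1 / δ) + Real.log (1 / δ) + L)) :=
        Real.exp_le_exp.2 (by linarith)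
      have e6 : Real.exp (-(Real.log (2 * C3 / π) + Real.log (1 / δ) + Real.log (1 / δ) + L)) =
          π / (2 * C3) * δ * δ * (1 / l) := by
        rw [Real.exp_neg, Real.exp_add, Real.exp_add, Real.exp_add, Real.exp_log (by positivity),
          Real.exp_log (by positivity), Real.exp_log hl0]
        field_simp
      rw [e4]
      calc C3 / δ * Real.exp (-(c * δ * l))
          ≤ C3 / δ * (π / (2 * C3) * δ * δ * (1 / l)) :=
            mul_le_mul_of_nonneg_left (e5.trans e6.le) (by positivity)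
        _ = 1 / l * (π / 2 * δ) := by
            field_simp
    rw [P_eq, P_eq, hE]
    have hcomp : (ms d p).real (Avs d k n) ≤
        (ms d p).real (Fin' d k)ᶜ + (ms d p).real (Avs d k n ∩ Fin' d k) := by
      refine le_trans (measureReal_mono ?_ (measure_ne_top _ _)) (measureReal_union_le _ _)
      intro ω hω
      by_cases h : ω ∈ Fin' d k
      · exact Or.inr ⟨hω, h⟩
      · exact Or.inl h
    have h1 : (ms d (Pool.Agent.Y990.CB.pc (siteM d))).real {ω : V d → Bool | Reaches ω k n} ≤
        (ms d p).real (Avs d k n) := by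
      refine le_trans (measureReal_mono ?_ (measure_ne_top _ _)) (Avs_par (p :=
        Pool.Agent.Y990.CB.pc (siteM d)) (q := p) hp'.le)
      intro ω hω
      exact reaches_sub hkn hω
    have h2 := key p hp' n hn1 k hk
    have h3 : 0 < 1 / l := by positivity
    have h4 := mul_le_mul_of_nonneg_left hth h3.le
    have h5 : (1 + 1 / l) * (ms d p).real (Fin' d k)ᶜ =
        (ms d p).real (Fin' d k)ᶜ + 1 / l * (ms d p).real (Fin' d k)ᶜ := by ring
    rw [h5]
    linarith

end

end Pool.Agent.Results.MP_e13933_pr.ApproachFromAbove
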