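import Pool.Agent.U153.Sp3

set_option autoImplicit false

open MeasureTheory Set

/-!
Site percolation on `Z^d`, `d ≥ 3`: the correlation length is at most
`exp (C log (2 / |p - p_c|) / |p - p_c|)` on both sides of the critical point.

The proof is in the modules `Pool.Agent.U153.Gr1` to `Gr8`, `Sb0` to `Sb2` and `Sp1` to `Sp3`.
-/

namespace Pool.Agent.Results.MP_e13933_pr.CorrelationLength

noncomputable section

/-- Vertices of `Z^d`. -/
abbrev V (d : ℕ) : Type := Fin d → ℤ

/-- The box of radius `N` around the origin; it has `(2 * N + 1) ^ d` vertices. -/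
def box (d N : ℕ) : Set (V d) := {x | ∀ i, |x i| ≤ N}

/-- The open subgraph: two vertices at Euclidean distance one are joined if both are open
(`ω x = true`). -/
def openGraph {d : ℕ} (ω : V d → Bool) : SimpleGraph (V d) where
  Adj x y := ∑ i, |x i - y i| = 1 ∧ ω x = true ∧ ω y = true
  symm := ⟨fun x y ⟨h1, h2, h3⟩ => ⟨by simpa only [abs_sub_comm] using h1, h3, h2⟩⟩
  loopless := ⟨fun x h => by simpa using h.1⟩

/-- The open cluster of `x` (empty if `x` is closed). -/
def cluster {d : ℕ} (ω : V d → Bool) (x : V d) : Set (V d) :=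
  {y | ω x = true ∧ (openGraph ω).Reachable x y}

/-- Site percolation with parameter `p`: all vertices are open with probability `p`,
independently. -/
def P (d : ℕ) (p : unitInterval) : Measure (V d → Bool) :=
  Measure.infinitePi (fun _ : V d =>
    ENNReal.ofReal (p : ℝ) • Measure.dirac true + ENNReal.ofReal (1 - (p : ℝ)) • Measure.dirac false)

/-- The percolation probability `θ_d(p)`. -/
def theta (d : ℕ) (p : unitInterval) : ℝ := (P d p).real {ω | (cluster ω 0).Infinite}

/-- The critical point `p_c(d)`, the supremum of the parameters with `θ_d(p) = 0`. -/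
def pc (d : ℕ) : unitInterval :=
  ⟨sSup {t : ℝ | ∃ q : unitInterval, (q : ℝ) = t ∧ theta d q = 0}, by
    constructor
    · apply Real.sSup_nonneg
      rintro x ⟨q, rfl, _⟩
      exact q.2.1
    · apply Real.sSup_le
      · rintro x ⟨q, rfl, _⟩
        exact q.2.2
      · exact zero_le_one⟩

/-- The length `exp (C log (2 / δ) / δ)`. -/
def len (C δ : ℝ) : ℝ := Real.exp (C * Real.log (2 / δ) / δ)

/-! ### Comparison with the model of the modules -/

lemma nd_mem {d : ℕ} {ω : V d → Bool} {x y : V d} :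
    (∀ c ∈ (Pool.Agent.Y990.CB.siteM d).nd x y, ω c = true) ↔ ω x = true ∧ ω y = true := by
  show (∀ c : V d, c ∈ ({x, y} : Finset (V d)) → ω c = true) ↔ _
  simp only [Finset.mem_insert, Finset.mem_singleton, forall_eq_or_imp, forall_eq]

open Pool.Agent.Y990.CB in
lemma graph_eq {d : ℕ} (ω : V d → Bool) : openGraph ω = G (siteM d) ω univ := by
  ext x y
  show (∑ i, |x i - y i| = 1 ∧ ω x = true ∧ ω y = true) ↔
    (∑ i, |x i - y i| = 1 ∧ x ∈ univ ∧ y ∈ univ ∧ ∀ c ∈ (siteM d).nd x y, ω c = true)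
  rw [nd_mem]
  simp only [mem_univ, true_and]

open Pool.Agent.Y990.CB in
lemma cluster_sub {d : ℕ} (ω : V d → Bool) (x : V d) :
    cluster ω x ⊆ cl (siteM d) ω univ x := by
  rintro y ⟨-, h⟩
  rw [graph_eq] at h
  exact h

open Pool.Agent.Y990.CB in
lemma cluster_open {d : ℕ} (ω : V d → Bool) {x y : V d} (hy : y ∈ cl (siteM d) ω univ x)
    (hyx : y ≠ x) : ω x = true := by
  have hr : (G (siteM d) ω univ).Reachable x y := hy
  obtain ⟨q⟩ := hr
  cases q with
  | nil => exact absurd rfl hyx
  | cons hadj _ => exact (nd_mem.1 hadj.2.2.2).1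

open Pool.Agent.Y990.CB in
lemma cluster_eq {d : ℕ} {ω : V d → Bool} {x : V d} (hx : ω x = true) :
    cluster ω x = cl (siteM d) ω univ x := by
  refine Set.Subset.antisymm (cluster_sub ω x) ?_
  intro y hy
  refine ⟨hx, ?_⟩
  rw [graph_eq]
  exact hy

open Pool.Agent.Y990.CB in
lemma infinite_iff {d : ℕ} (ω : V d → Bool) (x : V d) :
    (cluster ω x).Infinite ↔ (cl (siteM d) ω univ x).Infinite := by
  constructor
  · intro h
    exact h.mono (cluster_sub ω x)
  · intro h
    obtain ⟨y, hy, hyx⟩ := Set.Infinite.exists_notMem_finset h {x}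
    have hyx' : y ≠ x := by simpa using hyx
    rw [cluster_eq (cluster_open ω hy hyx')]
    exact h

open Pool.Agent.Y990.CB in
lemma P_eq (d : ℕ) (p : unitInterval) : P d p = Pool.Agent.R959.GF.ms d p := rfl

open Pool.Agent.Y990.CB in
lemma theta_eq (d : ℕ) (p : unitInterval) : theta d p = th (siteM d) p := by
  unfold theta th
  rw [P_eq]
  congr 1
  ext ω
  exact infinite_iff ω 0

open Pool.Agent.Y990.CB in
lemma pc_eq (d : ℕ) : pc d = Pool.Agent.Y990.CB.pc (siteM d) := by
  apply Subtype.ext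
  show sSup {t : ℝ | ∃ q : unitInterval, (q : ℝ) = t ∧ theta d q = 0} =
    sSup {x : ℝ | ∃ q : unitInterval, (q : ℝ) = x ∧ th (siteM d) q = 0}
  simp only [theta_eq]

open Pool.Agent.Y990.CB in
lemma box_eq (d N : ℕ) : box d N = Bo (0 : V d) N := by
  ext x
  simp only [box, Bo, mem_ofPred_eq, Pi.zero_apply, sub_zero]

lemma len_mono {C C' δ : ℝ} (h : C ≤ C') (h0 : 0 < δ) (h1 : δ ≤ 1) {A A' : ℝ} (hA : A ≤ A')
    (hA0 : 0 ≤ A) (n : ℕ) :
    A * Real.exp (-(n / len C δ)) ≤ A' * Real.exp (-(n / len C' δ)) := by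
  have hl := Pool.Agent.U153.half_le_log h0 h1
  have h2 : len C δ ≤ len C' δ := by
    unfold len
    refine Real.exp_le_exp.2 (div_le_div_of_nonneg_right ?_ h0.le)
    exact mul_le_mul_of_nonneg_right h (by linarith)
  have h3 : 0 < len C δ := Real.exp_pos _
  refine mul_le_mul hA (Real.exp_le_exp.2 (neg_le_neg ?_)) (Real.exp_pos _).le (hA0.trans hA)
  exact div_le_div_of_nonneg_left (Nat.cast_nonneg n) h3 h2

open Pool.Agent.U153 Pool.Agent.Y990.CB Pool.Agent.R959.GF in
/-- **The correlation length near the critical point.**  For every `d ≥ 3` there is `C ≥ 1` such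
that for all `n`:

* if `p < p_c`, the `P_p`-probability that the open cluster of the origin leaves the box of radius
  `n` is at most `C exp (- n / ξ)`;
* if `p > p_c`, the `P_p`-probability that the open cluster of the origin is finite and leaves the
  box of radius `n` is at most `C exp (- n / ξ)`;

where `ξ = exp (C log (2 / |p - p_c|) / |p - p_c|)`. -/
theorem result (d : ℕ) (hd : 3 ≤ d) : ∃ C : ℝ, 1 ≤ C ∧ ∀ (p : unitInterval) (n : ℕ),
    (p < pc d → (P d p).real {ω | ¬ cluster ω 0 ⊆ box d n} ≤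
      C * Real.exp (-(n / len C ((pc d : ℝ) - p)))) ∧
    (pc d < p → (P d p).real {ω | (cluster ω 0).Finite ∧ ¬ cluster ω 0 ⊆ box d n} ≤
      C * Real.exp (-(n / len C ((p : ℝ) - pc d)))) := by
  obtain ⟨C1, hC1, h1⟩ := sub_main hd
  obtain ⟨C2, hC2, h2⟩ := sup_main hd
  rw [pc_eq]
  have hd0 : (0 : ℝ) ≤ d := Nat.cast_nonneg d
  have hπ0 := (Pool.Agent.Y990.CB.pc (siteM d)).2.1
  have hπ1 := (Pool.Agent.Y990.CB.pc (siteM d)).2.2
  refine ⟨C1 + C2 + 16 * d, by linarith, fun p n => ⟨?_, ?_⟩⟩
  · intro hp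
    have hp' : (p : ℝ) < Pool.Agent.Y990.CB.pc (siteM d) := hp
    have hp0 := p.2.1
    refine le_trans ?_ (len_mono (C := C1) (A := 2) (by linarith) (by linarith) (by linarith)
      (by linarith) (by norm_num) n)
    refine le_trans ?_ (h1 p hp' n)
    rw [P_eq]
    refine measureReal_mono ?_ (measure_ne_top _ _)
    intro ω hω
    obtain ⟨y, hy, hyn⟩ := Set.not_subset.1 hω
    rw [box_eq] at hyn
    exact exit_As (self_mem_Bo 0 n) (Or.inl hyn) (cluster_sub ω 0 hy)
  · intro hp
    have hp' : (Pool.Agent.Y990.CB.pc (siteM d) : ℝ) < p := hp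
    have hp1 := p.2.2
    refine le_trans ?_ (len_mono (C := C2) (A := 16 * d) (by linarith) (by linarith) (by linarith)
      (by linarith) (by linarith) n)
    refine le_trans ?_ (h2 p hp' n)
    rw [P_eq]
    refine measureReal_mono ?_ (measure_ne_top _ _)
    rintro ω ⟨hfin, hω⟩
    obtain ⟨y, hy, hyn⟩ := Set.not_subset.1 hω
    have hx : ω 0 = true := hy.1
    have he := cluster_eq hx
    rw [he] at hfin hω
    rw [box_eq] at hω
    exact ⟨hfin, hω⟩

end

end Pool.Agent.Results.MP_e13933_pr.CorrelationLength
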