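import Pool.Agent.U153.Den

set_option autoImplicit false

open MeasureTheory Set Filter
open scoped Topology

/-!
Site percolation on `Z^d`, `d ≥ 3`, below the critical point, uniformly up to the critical point:
two boxes at distance `r` are connected inside a box of radius `R r` with probability at most
`C R r ^ (- c (p_c - p))`, and the probability that some cluster of the box of radius `R N` is dense
in the box of radius `N` is at most `C R ε⁻² N ^ (- c (p_c - p))`.

The estimates are in the modules `Pool.Agent.U153.Bel` and `Pool.Agent.U153.Den`.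
-/

namespace Pool.Agent.Results.MP_e13933_pr.RestrictedBelow

noncomputable section

/-- Vertices of `Z^d`. -/
abbrev V (d : ℕ) : Type := Fin d → ℤ

/-- The maximum norm. -/
def nrm {d : ℕ} (v : V d) : ℕ := Finset.univ.sup (fun i => (v i).natAbs)

/-- The box of radius `N` around `z`; it has `(2 * N + 1) ^ d` vertices. -/
def box {d : ℕ} (z : V d) (N : ℕ) : Set (V d) := {x | ∀ i, |x i - z i| ≤ N}

/-- The open subgraph inside the region `S`: two vertices at Euclidean distance one are joined if
both are open (`ω x = true`) and in `S`. -/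
def openGraph {d : ℕ} (ω : V d → Bool) (S : Set (V d)) : SimpleGraph (V d) where
  Adj x y := ∑ i, |x i - y i| = 1 ∧ (x ∈ S ∧ ω x = true) ∧ (y ∈ S ∧ ω y = true)
  symm := ⟨fun x y ⟨h1, h2, h3⟩ => ⟨by simpa only [abs_sub_comm] using h1, h3, h2⟩⟩
  loopless := ⟨fun x h => by simpa using h.1⟩

/-- The open cluster of `x` inside the region `S` (empty if `x` is closed). -/
def cluster {d : ℕ} (ω : V d → Bool) (S : Set (V d)) (x : V d) : Set (V d) :=
  {y | (ω x = true ∧ x ∈ S) ∧ (openGraph ω S).Reachable x y}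

/-- The sets `A` and `B` are connected inside the region `S`: some open cluster inside `S` meets
both of them. -/
def Joined {d : ℕ} (ω : V d → Bool) (S A B : Set (V d)) : Prop :=
  ∃ x ∈ A, (cluster ω S x ∩ B).Nonempty

/-- Site percolation with parameter `p`: all vertices are open with probability `p`,
independently. -/
def P (d : ℕ) (p : unitInterval) : Measure (V d → Bool) :=
  Measure.infinitePi (fun _ : V d =>
    ENNReal.ofReal (p : ℝ) • Measure.dirac true + ENNReal.ofReal (1 - (p : ℝ)) • Measure.dirac false)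

/-- The percolation probability `θ_d(p)`. -/
def theta (d : ℕ) (p : unitInterval) : ℝ := (P d p).real {ω | (cluster ω univ 0).Infinite}

/-- The critical point `p_c(d)`, the supremum of the parameters with `θ_d(p) = 0`. -/
def pc (d : ℕ) : unitInterval :=
  ⟨sSup {t : ℝ | ∃ q : unitInterval, (q : ℝ) = t ∧ theta d q = 0}, by
    constructor
    · apply Real.sSup_nonneg
      rintro x ⟨q, rfl, _⟩
      exact q.2.1
    · apply Real.sSup_le
      · rintro x ⟨q, rfl, _⟩
        exact q.2.2
      · exact zero_le_one⟩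

/-! ### Comparison with the model of the modules -/

lemma nd_mem {d : ℕ} {ω : V d → Bool} {x y : V d} :
    (∀ c ∈ (Pool.Agent.Y990.CB.siteM d).nd x y, ω c = true) ↔ ω x = true ∧ ω y = true := by
  show (∀ c : V d, c ∈ ({x, y} : Finset (V d)) → ω c = true) ↔ _
  simp only [Finset.mem_insert, Finset.mem_singleton, forall_eq_or_imp, forall_eq]

open Pool.Agent.Y990.CB in
lemma adj_iff {d : ℕ} (ω : V d → Bool) (S : Set (V d)) (x y : V d) :
    (openGraph ω S).Adj x y ↔ (G (siteM d) ω S).Adj x y := by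
  show (∑ i, |x i - y i| = 1 ∧ (x ∈ S ∧ ω x = true) ∧ (y ∈ S ∧ ω y = true)) ↔
    (∑ i, |x i - y i| = 1 ∧ x ∈ S ∧ y ∈ S ∧ ∀ c ∈ (siteM d).nd x y, ω c = true)
  rw [nd_mem]
  tauto

open Pool.Agent.Y990.CB in
lemma graph_eq {d : ℕ} (ω : V d → Bool) (S : Set (V d)) :
    openGraph ω S = G (siteM d) ω S := by
  ext x y
  exact adj_iff ω S x y

open Pool.Agent.Y990.CB in
lemma cluster_sub {d : ℕ} (ω : V d → Bool) (S : Set (V d)) (x : V d) :
    cluster ω S x ⊆ cl (siteM d) ω S x := by
  rintro y ⟨-, h⟩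
  rw [graph_eq] at h
  exact h

open Pool.Agent.Y990.CB in
lemma infinite_iff {d : ℕ} (ω : V d → Bool) (x : V d) :
    (cluster ω univ x).Infinite ↔ ω ∈ Perc (siteM d) x := by
  constructor
  · intro h
    exact h.mono (cluster_sub ω univ x)
  · intro h
    have hx : ω x = true := by
      obtain ⟨y, hy, hyx⟩ := Set.Infinite.exists_notMem_finset h {x}
      have hyx' : y ≠ x := by simpa using hyx
      have hr : (G (siteM d) ω univ).Reachable x y := hy
      obtain ⟨q⟩ := hr
      cases q with
      | nil => exact absurd rfl hyx'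
      | cons hadj _ => exact (nd_mem.1 hadj.2.2.2).1
    refine Set.Infinite.mono ?_ h
    intro y hy
    refine ⟨⟨hx, mem_univ x⟩, ?_⟩
    rw [graph_eq]
    exact hy

open Pool.Agent.Y990.CB in
lemma P_eq (d : ℕ) (p : unitInterval) : P d p = Pool.Agent.R959.GF.ms d p := rfl

open Pool.Agent.Y990.CB in
lemma theta_eq (d : ℕ) (p : unitInterval) : theta d p = th (siteM d) p := by
  unfold theta th
  have h : P d p = mu (siteM d) p := rfl
  rw [h]
  congr 1
  ext ω
  exact infinite_iff ω 0

open Pool.Agent.Y990.CB in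
lemma pc_eq (d : ℕ) : pc d = Pool.Agent.Y990.CB.pc (siteM d) := by
  apply Subtype.ext
  show sSup {t : ℝ | ∃ q : unitInterval, (q : ℝ) = t ∧ theta d q = 0} =
    sSup {x : ℝ | ∃ q : unitInterval, (q : ℝ) = x ∧ th (siteM d) q = 0}
  simp only [theta_eq]

open Pool.Agent.Y990.CB in
lemma joined_sub {d : ℕ} {ω : V d → Bool} {S A B : Set (V d)} (h : Joined ω S A B) :
    ω ∈ Lk (siteM d) S A B := by
  obtain ⟨x, hx, y, hy, hyB⟩ := h
  exact ⟨x, hx, y, hyB, cluster_sub ω S x hy⟩

/-- **Connections and dense clusters in boxes below the critical point.**  For every `d ≥ 3` there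
are `c > 0` and `C ≥ 1` such that for all `p ≤ p_c`:

* for all `R ≥ 1` and all distinct vertices `x`, `y` at sup distance `r`, and all `k ≤ r ^ c`, the
  `P_p`-probability that the boxes of radius `k` around `x` and `y` are connected inside the box of
  radius `R r` around `x` is at most `C R r ^ (- c (p_c - p))`;
* for all `N, R ≥ 1`, `ε > 0` and `k ≤ N ^ c` the `P_p`-probability that some open cluster of the
  box of radius `R N` comes within sup distance `k` of at least `ε (2 N + 1) ^ d` vertices of the box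
  of radius `N` is at most `(C R / ε ^ 2) N ^ (- c (p_c - p))`. -/
theorem result (d : ℕ) (hd : 3 ≤ d) : ∃ c C : ℝ, 0 < c ∧ 1 ≤ C ∧
    ∀ p : unitInterval, p ≤ pc d →
    (∀ (x y : V d) (k R : ℕ), x ≠ y → 1 ≤ R → (k : ℝ) ≤ (nrm (y - x) : ℝ) ^ c →
      (P d p).real {ω | Joined ω (box x (R * nrm (y - x))) (box x k) (box y k)} ≤
        C * R * (nrm (y - x) : ℝ) ^ (-(c * ((pc d : ℝ) - p)))) ∧
    (∀ (N R k : ℕ) (ε : ℝ), 1 ≤ N → 1 ≤ R → 0 < ε → (k : ℝ) ≤ (N : ℝ) ^ c →
      (P d p).real {ω | ∃ x, ε * (2 * N + 1) ^ d ≤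
        ({y | y ∈ box 0 N ∧ (box y k ∩ cluster ω (box 0 (R * N)) x).Nonempty}.ncard : ℝ)} ≤
        C * R / ε ^ 2 * (N : ℝ) ^ (-(c * ((pc d : ℝ) - p)))) := by
  obtain ⟨c, C, hc, hC, h⟩ := Pool.Agent.U153.belowDen hd
  refine ⟨c, C, hc, hC, fun p hp => ?_⟩
  have hp' : p ≤ Pool.Agent.Y990.CB.pc (Pool.Agent.Y990.CB.siteM d) := by
    rw [← pc_eq]; exact hp
  obtain ⟨h1, h2⟩ := h p hp'
  rw [← pc_eq] at h1 h2
  refine ⟨?_, ?_⟩
  · intro x y k R hxy hR hk
    refine le_trans ?_ (h1 x y k R hxy hR hk)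
    rw [P_eq]
    exact measureReal_mono (fun ω hω => joined_sub hω) (measure_ne_top _ _)
  · intro N R k ε hN hR hε hk
    refine le_trans ?_ (h2 N R k ε hN hR hε hk)
    rw [P_eq]
    refine measureReal_mono ?_ (measure_ne_top _ _)
    rintro ω ⟨x, hx⟩
    have hfin : {y | y ∈ box (0 : V d) N ∧
        (box y k ∩ cluster ω (box 0 (R * N)) x).Nonempty}.Finite :=
      (Pool.Agent.Y990.CB.Bo_finite 0 N).subset fun y hy => hy.1
    refine ⟨hfin.toFinset, ?_, ?_, ?_⟩
    · intro y hy
      rw [Set.Finite.mem_toFinset] at hy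
      rw [Pool.Agent.Y990.CB.mem_Bf]
      exact hy.1
    · rw [← Set.ncard_eq_toFinset_card _ hfin]
      push_cast
      exact hx
    · intro y hy z hz
      rw [Set.Finite.mem_toFinset] at hy hz
      obtain ⟨-, u, hu, hux⟩ := hy
      obtain ⟨-, w, hw, hwx⟩ := hz
      refine ⟨u, hu, w, hw, ?_⟩
      have e1 := cluster_sub ω _ x hux
      have e2 := cluster_sub ω _ x hwx
      exact (SimpleGraph.Reachable.symm e1).trans e2

end

end Pool.Agent.Results.MP_e13933_pr.RestrictedBelow
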