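import Pool.Agent.U153.Gr8

set_option autoImplicit false

open MeasureTheory Set

/-!
Site percolation on `Z^d`, `d ≥ 3`, above the critical point: a quantitative form of the theorem of
Grimmett and Marstrand.  The slab `Z^2 × [-L, L]^(d-2)` percolates at `p`, and the origin percolates
in it with probability at least `c (p - p_c)`, as soon as
`L ≥ exp (C log (2 / (p - p_c)) / (p - p_c))`.

The proof is in the modules `Pool.Agent.U153.Gr1` to `Pool.Agent.U153.Gr8`.
-/

namespace Pool.Agent.Results.MP_e13933_pr.SlabWindow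

noncomputable section

/-- Vertices of `Z^d`. -/
abbrev V (d : ℕ) : Type := Fin d → ℤ

/-- The slab of half-width `L` around the plane of the coordinates `i` and `j`: all the other
coordinates are at most `L` in absolute value. -/
def slab {d : ℕ} (i j : Fin d) (L : ℕ) : Set (V d) := {x | ∀ l, l ≠ i → l ≠ j → |x l| ≤ L}

/-- The open subgraph inside the region `S`: two vertices at Euclidean distance one are joined if
both are open (`ω x = true`) and in `S`. -/
def openGraph {d : ℕ} (ω : V d → Bool) (S : Set (V d)) : SimpleGraph (V d) where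
  Adj x y := ∑ i, |x i - y i| = 1 ∧ (x ∈ S ∧ ω x = true) ∧ (y ∈ S ∧ ω y = true)
  symm := ⟨fun x y ⟨h1, h2, h3⟩ => ⟨by simpa only [abs_sub_comm] using h1, h3, h2⟩⟩
  loopless := ⟨fun x h => by simpa using h.1⟩

/-- The open cluster of `x` inside the region `S` (empty if `x` is closed). -/
def cluster {d : ℕ} (ω : V d → Bool) (S : Set (V d)) (x : V d) : Set (V d) :=
  {y | (ω x = true ∧ x ∈ S) ∧ (openGraph ω S).Reachable x y}

/-- Site percolation with parameter `p`: all vertices are open with probability `p`,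
independently. -/
def P (d : ℕ) (p : unitInterval) : Measure (V d → Bool) :=
  Measure.infinitePi (fun _ : V d =>
    ENNReal.ofReal (p : ℝ) • Measure.dirac true + ENNReal.ofReal (1 - (p : ℝ)) • Measure.dirac false)

/-- The probability that the origin lies in an infinite open cluster of the region `S`. -/
def thetaIn {d : ℕ} (S : Set (V d)) (p : unitInterval) : ℝ :=
  (P d p).real {ω | (cluster ω S 0).Infinite}

/-- The percolation probability `θ_d(p)`. -/
def theta (d : ℕ) (p : unitInterval) : ℝ := thetaIn (univ : Set (V d)) p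

/-- The critical point `p_c(d)`, the supremum of the parameters with `θ_d(p) = 0`. -/
def pc (d : ℕ) : unitInterval :=
  ⟨sSup {t : ℝ | ∃ q : unitInterval, (q : ℝ) = t ∧ theta d q = 0}, by
    constructor
    · apply Real.sSup_nonneg
      rintro x ⟨q, rfl, _⟩
      exact q.2.1
    · apply Real.sSup_le
      · rintro x ⟨q, rfl, _⟩
        exact q.2.2
      · exact zero_le_one⟩

/-! ### Comparison with the model of the modules -/

lemma nd_mem {d : ℕ} {ω : V d → Bool} {x y : V d} :
    (∀ c ∈ (Pool.Agent.Y990.CB.siteM d).nd x y, ω c = true) ↔ ω x = true ∧ ω y = true := by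
  show (∀ c : V d, c ∈ ({x, y} : Finset (V d)) → ω c = true) ↔ _
  simp only [Finset.mem_insert, Finset.mem_singleton, forall_eq_or_imp, forall_eq]

open Pool.Agent.Y990.CB in
lemma adj_iff {d : ℕ} (ω : V d → Bool) (S : Set (V d)) (x y : V d) :
    (openGraph ω S).Adj x y ↔ (G (siteM d) ω S).Adj x y := by
  show (∑ i, |x i - y i| = 1 ∧ (x ∈ S ∧ ω x = true) ∧ (y ∈ S ∧ ω y = true)) ↔
    (∑ i, |x i - y i| = 1 ∧ x ∈ S ∧ y ∈ S ∧ ∀ c ∈ (siteM d).nd x y, ω c = true)
  rw [nd_mem]
  tauto

open Pool.Agent.Y990.CB in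
lemma graph_eq {d : ℕ} (ω : V d → Bool) (S : Set (V d)) :
    openGraph ω S = G (siteM d) ω S := by
  ext x y
  exact adj_iff ω S x y

open Pool.Agent.Y990.CB in
lemma cluster_sub {d : ℕ} (ω : V d → Bool) (S : Set (V d)) (x : V d) :
    cluster ω S x ⊆ cl (siteM d) ω S x := by
  rintro y ⟨-, h⟩
  rw [graph_eq] at h
  exact h

open Pool.Agent.Y990.CB in
lemma infinite_iff {d : ℕ} (ω : V d → Bool) (S : Set (V d)) (x : V d) :
    (cluster ω S x).Infinite ↔ (cl (siteM d) ω S x).Infinite := by
  constructor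
  · intro h
    exact h.mono (cluster_sub ω S x)
  · intro h
    have hx : ω x = true ∧ x ∈ S := by
      obtain ⟨y, hy, hyx⟩ := Set.Infinite.exists_notMem_finset h {x}
      have hyx' : y ≠ x := by simpa using hyx
      have hr : (G (siteM d) ω S).Reachable x y := hy
      obtain ⟨q⟩ := hr
      cases q with
      | nil => exact absurd rfl hyx'
      | cons hadj _ => exact ⟨(nd_mem.1 hadj.2.2.2).1, hadj.2.1⟩
    refine Set.Infinite.mono ?_ h
    intro y hy
    refine ⟨hx, ?_⟩
    rw [graph_eq]
    exact hy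

open Pool.Agent.Y990.CB in
lemma P_eq (d : ℕ) (p : unitInterval) : P d p = Pool.Agent.R959.GF.ms d p := rfl

open Pool.Agent.Y990.CB in
lemma thetaIn_eq {d : ℕ} (S : Set (V d)) (p : unitInterval) :
    thetaIn S p = (Pool.Agent.R959.GF.ms d p).real
      {ω | (Pool.Agent.R959.GF.cs ω S 0).Infinite} := by
  unfold thetaIn
  rw [P_eq]
  congr 1
  ext ω
  exact infinite_iff ω S 0

open Pool.Agent.Y990.CB in
lemma theta_eq (d : ℕ) (p : unitInterval) : theta d p = th (siteM d) p := by
  unfold theta th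
  rw [thetaIn_eq]
  rfl

open Pool.Agent.Y990.CB in
lemma pc_eq (d : ℕ) : pc d = Pool.Agent.Y990.CB.pc (siteM d) := by
  apply Subtype.ext
  show sSup {t : ℝ | ∃ q : unitInterval, (q : ℝ) = t ∧ theta d q = 0} =
    sSup {x : ℝ | ∃ q : unitInterval, (q : ℝ) = x ∧ th (siteM d) q = 0}
  simp only [theta_eq]

lemma slab_eq {d : ℕ} (i j : Fin d) (L : ℕ) : slab i j L = Pool.Agent.U153.Sb i j L := rfl

lemma loglog {n : ℕ} (hn : 3 ≤ n) : 1 ≤ Real.log n ∧ 1 / 40 ≤ Real.log (Real.log n) := by
  have hnR : (3 : ℝ) ≤ n := by exact_mod_cast hn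
  have h1 : 1.02 ≤ Real.log 3 - 0.006 := by
    have e1 : Real.log 3 = Real.log 2 + Real.log (3 / 2) := by
      rw [← Real.log_mul (by norm_num) (by norm_num)]
      norm_num
    have e2 := Real.log_two_gt_d9
    have e3 := Real.one_sub_inv_le_log_of_pos (show (0 : ℝ) < 3 / 2 by norm_num)
    norm_num at e3
    rw [e1]
    norm_num
    linarith
  have h2 : Real.log 3 ≤ Real.log n := Real.log_le_log (by norm_num) hnR
  norm_num at h1
  have h3 : 1.026 ≤ Real.log n := by
    norm_num
    linarith
  refine ⟨by norm_num at h3; linarith, ?_⟩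
  have h4 := Real.one_sub_inv_le_log_of_pos (show (0 : ℝ) < 1.026 by norm_num)
  have h5 : Real.log 1.026 ≤ Real.log (Real.log n) := Real.log_le_log (by norm_num) h3
  norm_num at h4 h5 ⊢
  linarith

/-- **A quantitative Grimmett–Marstrand theorem.**  For every `d ≥ 3` there are `c > 0` and `C ≥ 1`
such that, for any two distinct coordinates `i` and `j`,

* for all `p > p_c` and `L ≥ exp (C log (2 / (p - p_c)) / (p - p_c))`, the `P_p`-probability that
  the origin lies in an infinite open cluster of the slab of half-width `L` is at least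
  `c (p - p_c)`;
* the same lower bound holds for all `L ≥ 3` and all `p ≥ p_c + C log log L / log L`; in particular
  the critical point of the slab is at most `p_c + C log log L / log L`. -/
theorem result (d : ℕ) (hd : 3 ≤ d) : ∃ c C : ℝ, 0 < c ∧ 1 ≤ C ∧
    ∀ i j : Fin d, i ≠ j →
    (∀ p : unitInterval, pc d < p → ∀ L : ℕ,
      Real.exp (C * Real.log (2 / ((p : ℝ) - pc d)) / ((p : ℝ) - pc d)) ≤ L →
      c * ((p : ℝ) - pc d) ≤ thetaIn (slab i j L) p) ∧
    (∀ L : ℕ, 3 ≤ L → ∀ p : unitInterval,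
      (pc d : ℝ) + C * Real.log (Real.log L) / Real.log L ≤ p →
      c * ((p : ℝ) - pc d) ≤ thetaIn (slab i j L) p) := by
  obtain ⟨c, C, hc, hC, h⟩ := Pool.Agent.U153.slab_main hd
  have key : ∀ i j : Fin d, i ≠ j → ∀ p : unitInterval, pc d < p → ∀ L : ℕ,
      Real.exp (C * Real.log (2 / ((p : ℝ) - pc d)) / ((p : ℝ) - pc d)) ≤ L →
      c * ((p : ℝ) - pc d) ≤ thetaIn (slab i j L) p := by
    intro i j hij p hp L hL
    have hp' : (pc d : ℝ) < p := hp
    rw [pc_eq] at hL hp' ⊢
    rw [thetaIn_eq, slab_eq]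
    exact h p hp' i j hij L hL
  refine ⟨c, C + 80, hc, by linarith, fun i j hij => ⟨?_, ?_⟩⟩
  · intro p hp L hL
    refine key i j hij p hp L (le_trans ?_ hL)
    have hδ0 : 0 < (p : ℝ) - pc d := by
      have : (pc d : ℝ) < p := hp
      linarith
    have hδ1 : (p : ℝ) - pc d ≤ 1 := by
      have h1 := p.2.2
      have h2 := (pc d).2.1
      linarith
    have h1 := Pool.Agent.U153.half_le_log hδ0 hδ1
    refine Real.exp_le_exp.2 (div_le_div_of_nonneg_right ?_ hδ0.le)
    exact mul_le_mul_of_nonneg_right (by linarith) (by linarith)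
  · intro L hL p hp
    obtain ⟨hl1, hLL⟩ := loglog hL
    obtain ⟨l, hl⟩ : ∃ l : ℝ, l = Real.log L := ⟨_, rfl⟩
    obtain ⟨ll, hll⟩ : ∃ ll : ℝ, ll = Real.log l := ⟨_, rfl⟩
    rw [← hl] at hl1 hLL hp
    rw [← hll] at hLL hp
    obtain ⟨δ, hδ⟩ : ∃ δ : ℝ, δ = (p : ℝ) - pc d := ⟨_, rfl⟩
    have hl0 : 0 < l := by linarith
    have hll0 : 0 < ll := by linarith
    have h1 : (C + 80) * ll / l ≤ δ := by linarith
    have h2 : (C + 80) * ll ≤ δ * l := by rwa [div_le_iff₀ hl0] at h1
    have hδ0 : 0 < δ := by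
      have : 0 < (C + 80) * ll / l := by positivity
      linarith
    have hp' : pc d < p := by
      show (pc d : ℝ) < p
      linarith
    refine key i j hij p hp' L ?_
    rw [← hδ]
    have hL0 : (0 : ℝ) < L := by
      have : 0 < L := by omega
      exact_mod_cast this
    have h3 : Real.log (2 / δ) ≤ ll := by
      rw [hll]
      refine Real.log_le_log (by positivity) ?_
      rw [div_le_iff₀ hδ0]
      have : C * ll ≥ 0 := by positivity
      linarith
    have h4 : C * Real.log (2 / δ) / δ ≤ l := by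
      rw [div_le_iff₀ hδ0]
      have h5 : C * Real.log (2 / δ) ≤ C * ll := mul_le_mul_of_nonneg_left h3 (by linarith)
      linarith
    calc Real.exp (C * Real.log (2 / δ) / δ) ≤ Real.exp l := Real.exp_le_exp.2 h4
      _ = L := by rw [hl, Real.exp_log hL0]

end

end Pool.Agent.Results.MP_e13933_pr.SlabWindow
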